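import Pool.Agent.Helper17.SLD.Goals
import Pool.Agent.Helper17.SL.Chain

/-!
# Project SLD: packet RANK (the strong `p`-adic rank theorem from the general theorem)
-/

namespace Pool.Agent.Helper31.SLD.PkRANK

open Pool.Agent.Helper51.SigLeo Pool.Agent.Helper51.SixExp NumberField Module
open Pool.Agent.Helper17.SL Pool.Agent.Helper17.SLD
open Pool.Agent.Helper17.SL.PkSIXA (isLog_sum arith)

universe u v w x

theorem thm (hGEN : S_GEN.{u, v, w, max w u, 0}) (hLA : S_LA.{w, u}) (hLB : S_LB.{w, v})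
    (hSA : S_SA.{w, u, v, x}) (hSB : S_SB.{w, v, x}) (hSC : S_SC.{u, v}) :
    S_RANK.{u, v, w, x} := by
  classical
  intro p _ k _ _ _ _ _ Ω _ _ _ _ ι Λ E _ _ lam d l r R _ b y M X Z hy hM hXZ hdl
  by_contra hcon
  push Not at hcon
  have hd : 0 < d := by
    rcases Nat.eq_zero_or_pos d with h | h
    · rw [h] at hdl; omega
    · exact h
  have hl : 0 < l := by
    rcases Nat.eq_zero_or_pos l with h | h
    · rw [h] at hdl; omega
    · exact h
  have hr : 0 < r := by
    rcases Nat.eq_zero_or_pos r with h | h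
    · exfalso
      subst h
      refine hcon (fun _ ↦ 1) (fun _ ↦ 1) (fun h ↦ one_ne_zero (congrFun h ⟨0, hd⟩))
        (fun h ↦ one_ne_zero (congrFun h ⟨0, hl⟩)) ?_
      refine Finset.sum_eq_zero fun i _ ↦ Finset.sum_eq_zero fun j _ ↦ ?_
      rw [hXZ]
      simp
    · exact h
  obtain ⟨xx, hxx⟩ : ∃ xx : Fin d → Fin l → R → k, xx = fun i j r ↦
    Λ.toFun (Units.map (ι : Ω →* k) (y i j r)) := ⟨_, rfl⟩
  have hMx : ∀ i j, M i j = ∑ r, ι (lam (b i j r)) * xx i j r := by
    intro i j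
    rw [hM, hxx]
  have hxlog : ∀ i j r, IsLog Λ ι (xx i j r) := by
    intro i j r
    refine ⟨1, one_pos, y i j r, hy i j r, ?_⟩
    rw [Nat.cast_one, one_mul, hxx]
  -- the form
  have hBlog : ∀ a c, IsLog Λ ι (Bform b xx a c) := by
    intro a c
    have hq := (hSC p k Ω ι Λ).2.2
    show IsLog Λ ι (∑ i, ∑ j, ∑ r, (Algebra.trace ℚ E (a i * c j * b i j r)) • xx i j r)
    exact isLog_sum hSC _ _ fun i _ ↦ isLog_sum hSC _ _ fun j _ ↦ isLog_sum hSC _ _ fun r _ ↦
      hq _ _ (hxlog i j r)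
  have hBE : ∀ (e : E) a c, Bform b xx (e • a) c = Bform b xx a (e • c) := by
    intro e a c
    show (∑ i, ∑ j, ∑ r, (Algebra.trace ℚ E ((e • a) i * c j * b i j r)) • xx i j r) =
      ∑ i, ∑ j, ∑ r, (Algebra.trace ℚ E (a i * (e • c) j * b i j r)) • xx i j r
    refine Finset.sum_congr rfl fun i _ ↦ Finset.sum_congr rfl fun j _ ↦
      Finset.sum_congr rfl fun r _ ↦ ?_
    rw [Pi.smul_apply, Pi.smul_apply, smul_eq_mul, smul_eq_mul]
    congr 2
    ring
  have hprod : ∀ (a : Fin d → E) (c : Fin l → E),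
      ∑ i, ∑ j, ι (lam (a i)) * ι (lam (c j)) * M i j =
        ∑ t, (∑ j, ι (lam (c j)) * Z t j) * ∑ i, ι (lam (a i)) * X i t := by
    intro a c
    simp only [hXZ, Finset.mul_sum, Finset.sum_mul]
    calc ∑ i, ∑ j, ∑ t, ι (lam (a i)) * ι (lam (c j)) * (X i t * Z t j)
        = ∑ i, ∑ t, ∑ j, ι (lam (a i)) * ι (lam (c j)) * (X i t * Z t j) :=
          Finset.sum_congr rfl fun i _ ↦ Finset.sum_comm
      _ = ∑ t, ∑ i, ∑ j, ι (lam (a i)) * ι (lam (c j)) * (X i t * Z t j) := Finset.sum_comm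
      _ = _ := by
          refine Finset.sum_congr rfl fun t _ ↦ ?_
          refine Finset.sum_congr rfl fun i _ ↦ Finset.sum_congr rfl fun j _ ↦ ?_
          ring
  have hnd : ∀ a c, (∀ e : E, Bform b xx (e • a) c = 0) → a = 0 ∨ c = 0 := by
    intro a c h
    have h1 := hSB E k (ι.comp lam) d l R b xx a c h
    simp only [RingHom.comp_apply, ← hMx] at h1
    by_contra hne
    rw [not_or] at hne
    exact hcon a c hne.1 hne.2 h1
  -- dimensions
  obtain ⟨φ, hφ⟩ : ∃ φ : ℕ, φ = finrank ℚ E := ⟨_, rfl⟩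
  have hφ0 : 0 < φ := by rw [hφ]; exact Module.finrank_pos
  have hdV : finrank ℚ (Fin d → E) = d * φ := by
    rw [Module.finrank_pi_fintype]
    simp [hφ]
  have hlV : finrank ℚ (Fin l → E) = l * φ := by
    rw [Module.finrank_pi_fintype]
    simp [hφ]
  have : Fintype {σ : E →+* Ω // σ ≠ lam} := Fintype.ofFinite _
  have hcI : Fintype.card ({σ : E →+* Ω // σ ≠ lam} × Fin d) = (φ - 1) * d := by
    rw [Fintype.card_prod, Fintype.card_fin]
    congr 1
    rw [Fintype.card_subtype_compl (fun σ : E →+* Ω ↦ σ = lam), Fintype.card_subtype_eq,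
      NumberField.Embeddings.card, hφ]
  -- the maps
  obtain ⟨cb, -⟩ : ∃ cb : Basis (Fin (finrank ℚ (Fin l → E))) ℚ (Fin l → E), True :=
    ⟨Module.finBasis ℚ (Fin l → E), trivial⟩
  let Y : Fin (finrank ℚ (Fin l → E)) → (Fin d → E) →ₗ[ℚ] k := fun j ↦ (Bform b xx).flip (cb j)
  have hY : ∀ j a, Y j a = Bform b xx a (cb j) := fun j a ↦ rfl
  -- the span
  let G : Fin r ⊕ ({σ : E →+* Ω // σ ≠ lam} × Fin d) → (Fin d → E) → k := fun o a ↦
    o.elim (fun t ↦ ∑ i, ι (lam (a i)) * X i t) (fun q ↦ ι (conjX lam d q a))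
  have hspan : Submodule.span k ((Set.range fun i ↦ (fun v ↦ ι (conjX lam d i v) : (Fin d → E) → k)) ∪
      (Set.range fun j ↦ (fun v ↦ Y j v : (Fin d → E) → k))) ≤ Submodule.span k (Set.range G) := by
    rw [Submodule.span_le]
    rintro f (⟨q, rfl⟩ | ⟨j, rfl⟩)
    · exact Submodule.subset_span ⟨Sum.inr q, rfl⟩
    · have hYj : (fun v ↦ Y j v : (Fin d → E) → k) =
          (∑ t : Fin r, (∑ j', ι (lam (cb j j')) * Z t j') • G (Sum.inl t)) +
          ∑ q : {σ : E →+* Ω // σ ≠ lam} × Fin d,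
            (∑ j', ι (q.1.1 (cb j j')) * ∑ r, ι (q.1.1 (b q.2 j' r)) * xx q.2 j' r) •
              G (Sum.inr q) := by
        funext a
        rw [hY, hSA E Ω k ι d l R b xx a (cb j)]
        rw [Pi.add_apply, Finset.sum_apply, Finset.sum_apply]
        simp only [Pi.smul_apply, smul_eq_mul]
        rw [← Finset.add_sum_erase Finset.univ _ (Finset.mem_univ lam)]
        congr 1
        · have := hprod a (cb j)
          simp only [hMx] at this
          rw [this]
          rfl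
        · rw [Fintype.sum_prod_type]
          rw [← Finset.sum_subtype_of_mem
            (f := fun σ : E →+* Ω ↦ ∑ i, ∑ j', ι (σ (a i)) * ι (σ (cb j j')) *
              ∑ r, ι (σ (b i j' r)) * xx i j' r) (s := Finset.univ.erase lam)
              (p := fun σ ↦ σ ≠ lam) (fun σ hσ ↦ (Finset.mem_erase.1 hσ).1)]
          have hs : (Finset.univ.erase lam).subtype (fun σ : E →+* Ω ↦ σ ≠ lam) = Finset.univ := by
            ext σ
            simp [σ.2]
          rw [hs]
          refine Finset.sum_congr rfl fun σ _ ↦ Finset.sum_congr rfl fun i _ ↦ ?_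
          show _ = (∑ j', ι (σ.1 (cb j j')) * ∑ r, ι (σ.1 (b i j' r)) * xx i j' r) * ι (σ.1 (a i))
          rw [Finset.sum_mul]
          refine Finset.sum_congr rfl fun j' _ ↦ ?_
          ring
      show (fun v ↦ Y j v : (Fin d → E) → k) ∈ Submodule.span k (Set.range G)
      rw [hYj]
      refine Submodule.add_mem _
        (Submodule.sum_mem _ fun t _ ↦ Submodule.smul_mem _ _ (Submodule.subset_span ⟨Sum.inl t, rfl⟩))
        (Submodule.sum_mem _ fun q _ ↦ Submodule.smul_mem _ _ (Submodule.subset_span ⟨Sum.inr q, rfl⟩))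
  have hN : finrank k (Submodule.span k
      ((Set.range fun i ↦ (fun v ↦ ι (conjX lam d i v) : (Fin d → E) → k)) ∪
      (Set.range fun j ↦ (fun v ↦ Y j v : (Fin d → E) → k)))) ≤ (φ - 1) * d + r := by
    haveI : FiniteDimensional k (Submodule.span k (Set.range G)) :=
      FiniteDimensional.span_of_finite k (Set.finite_range G)
    refine (Submodule.finrank_mono hspan).trans ?_
    have h1 := finrank_range_le_card (R := k) G
    rw [Fintype.card_sum, hcI, Fintype.card_fin, add_comm] at h1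
    exact h1
  -- real constants
  have hφR : (0 : ℝ) < φ := by exact_mod_cast hφ0
  have hdR : (0 : ℝ) < d := by exact_mod_cast hd
  have hlR : (0 : ℝ) < l := by exact_mod_cast hl
  have hrR : (1 : ℝ) ≤ r := by exact_mod_cast hr
  have hdlR : (r : ℝ) * (d + l) < d * l := by exact_mod_cast hdl
  obtain ⟨β, hβ1, hβ2⟩ : ∃ β : ℝ, r / (l * φ : ℝ) < β ∧ β < d / ((d + l) * φ) := by
    refine exists_between ?_
    rw [div_lt_div_iff₀ (by positivity) (by positivity)]
    nlinarith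
  have hβ0 : 0 < β := lt_trans (by positivity) hβ1
  have hβ3 : β * ((d + l) * φ) < d := by rwa [lt_div_iff₀ (by positivity)] at hβ2
  have hφ1 : (1 : ℝ) ≤ φ := by exact_mod_cast hφ0
  have hβlt : β < 1 := by
    refine lt_of_lt_of_le hβ2 ?_
    rw [div_le_one (by positivity)]
    nlinarith
  have hβ4 : (r : ℝ) < β * (l * φ) := by rwa [div_lt_iff₀ (by positivity)] at hβ1
  obtain ⟨A, hA1, hA2⟩ := hGEN p k Ω ι Λ (Fin d → E) ({σ : E →+* Ω // σ ≠ lam} × Fin d)
    (Fin (finrank ℚ (Fin l → E))) (conjX lam d) Y ((φ - 1) * d + r) β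
    (fun j v ↦ hBlog v (cb j)) (by omega) hN hβ0 hβlt (by
      rw [hcI, Fintype.card_fin, hlV]
      push_cast
      linarith)
  -- the consequence of LA
  have hA3 := hLA E Ω lam d A
  rw [← hφ] at hA3
  -- the consequence of LB
  have hA4 := hLB E k d l (Bform b xx) hBE hnd A
    ((relY Y A).map (cb.equivFun.symm : (Fin (finrank ℚ (Fin l → E)) → ℚ) →ₗ[ℚ] (Fin l → E))) (by
      rintro c ⟨s, hs, rfl⟩ a ha
      have hs' : ∀ v ∈ A, ∑ j, s j • Y j v = 0 := hs
      have h1 := hs' a ha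
      show Bform b xx a (cb.equivFun.symm s) = 0
      rw [Basis.equivFun_symm_apply, map_sum]
      simp only [map_smul]
      exact h1)
  rw [LinearEquiv.finrank_map_eq, ← hφ] at hA4
  obtain ⟨s, hs⟩ : ∃ s : ℕ, s = finrank Ω (spanX (conjX lam d) A) := ⟨_, rfl⟩
  obtain ⟨m', hm'⟩ : ∃ m' : ℕ, m' = finrank ℚ (relY Y A) := ⟨_, rfl⟩
  obtain ⟨rA, hrA⟩ : ∃ rA : ℕ, rA = finrank ℚ A := ⟨_, rfl⟩
  rw [← hs, ← hrA] at hA3
  rw [← hm', ← hrA] at hA4
  rw [← hs, ← hm', hcI] at hA1
  rw [← hs, ← hm', ← hrA, hcI, hdV] at hA2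
  have hrle : rA ≤ d * φ := by
    rw [hrA, ← hdV]
    exact Submodule.finrank_le A
  have hsle : s ≤ (φ - 1) * d := by
    rw [hs, ← hcI, ← Module.finrank_fintype_fun_eq_card (R := Ω)]
    exact Submodule.finrank_le _
  have hφs : ((φ - 1 : ℕ) : ℝ) = (φ : ℝ) - 1 := by
    rw [Nat.cast_sub hφ0, Nat.cast_one]
  have hA3R : ((φ : ℝ) - 1) * rA ≤ φ * s := by
    rw [← hφs]
    exact_mod_cast hA3
  have hA4R : (d : ℝ) * m' + l * rA ≤ l * (d * φ) := by exact_mod_cast hA4
  have hrleR : (rA : ℝ) ≤ d * φ := by exact_mod_cast hrle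
  have hsleR : (s : ℝ) ≤ ((φ : ℝ) - 1) * d := by
    rw [← hφs]
    exact_mod_cast hsle
  push_cast at hA2
  rw [hφs] at hA2
  have hzero : ((d : ℝ) * φ - rA) = 0 := by
    refine arith (φ := φ) (d := d) (l := l) (n' := ((φ : ℝ) - 1) * d - s) (m' := m') (β := β) hφR hdR
      (by linarith) hβ3 hβ0 ?_ ?_ hA2
    · nlinarith
    · nlinarith
  have hm0 : (m' : ℝ) ≤ 0 := by
    have : (d : ℝ) * m' ≤ 0 := by nlinarith
    by_contra h
    push Not at h
    have := mul_pos hdR h
    linarith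
  have hm00 : m' = 0 := by
    have : (0 : ℝ) ≤ m' := Nat.cast_nonneg _
    exact_mod_cast le_antisymm hm0 this
  rcases hA1 with h | h
  · apply h
    have h1 : ((φ : ℝ) - 1) * d ≤ s := by
      have : φ * (((φ : ℝ) - 1) * d) ≤ φ * s := by nlinarith
      exact le_of_mul_le_mul_left this hφR
    have h2 : (s : ℝ) = ((φ : ℝ) - 1) * d := le_antisymm hsleR h1
    rw [← hφs] at h2
    exact_mod_cast h2
  · exact h hm00

/-- The strong `p`-adic rank theorem. -/
theorem rank_holds : S_RANK.{u, v, w, x} :=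
  thm gen_holds (PkLA.thm PkSUB.thm) (PkLB.thm PkSUB.thm) PkSA.thm PkSB.thm PkSC.thm

end Pool.Agent.Helper31.SLD.PkRANK
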